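import Pool.Agent.Y879.NP.Core
import Pool.Agent.Y879.NP.Fam

/-!
# Sieve weights for blocks of coordinates: an arbitrary number `n` of coordinates, `J ≤ c log n` blocks

Adapted from `Pool.Agent.Y520.NP.Shp` (helper520).
-/

set_option autoImplicit false

open Finset Filter Topology
open scoped ContDiff

namespace Pool.Agent.Y879.NP

open Pool.Agent.H378R2 Pool.Agent.H387R2 Pool.Agent.H387R2.MB Pool.Agent.H362R2.QT
open Pool.Agent.Y520.NP (BLKg Std)

/-- sieve weights for `n` coordinates and `J` blocks of `n / J` coordinates, if `2 * 2 ^ (C * J) ≤ n` -/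
theorem blkn : ∃ C : ℕ, 1 ≤ C ∧ ∀ J n : ℕ, 1 ≤ J → 2 * 2 ^ (C * J) ≤ n →
    BLKg n J (fun s => Ico (s * (n / J)) ((s + 1) * (n / J))) 2 (1 / 10) := by
  obtain ⟨C, hC⟩ : ∃ C : ℕ, 8 * gam * 25000 / (1 / 100 * (1 / 20)) ≤ (C : ℝ) := exists_nat_ge _
  refine ⟨C + 1, by omega, ?_⟩
  intro J n hJ hn
  obtain ⟨B, hB⟩ : ∃ B : ℕ, B = (C + 1) * J := ⟨_, rfl⟩
  rw [← hB] at hn
  have hB1 : 1 ≤ B := by rw [hB]; exact Nat.mul_pos (by omega) hJ
  have h2B : B < 2 ^ B := Nat.lt_two_pow_self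
  have hJB : J ≤ B := by rw [hB]; exact Nat.le_mul_of_pos_left _ (by omega)
  have hJn : J ≤ n := by omega
  obtain ⟨K0, rfl⟩ : ∃ K0, n = K0 + 1 := ⟨n - 1, by omega⟩
  have hK01 : 1 ≤ K0 := by omega
  obtain ⟨f, c, A, s, hs, hsm, hcs, hf0, hc, hA, hf1, hII0, hII, hJJ, hJ2, hM⟩ :=
    famn K0 B (1 / 100) (1 / 20) hB1 hK01 hn (by norm_num) (by norm_num) (by norm_num) (by norm_num)
  obtain ⟨K', hK'⟩ : ∃ K', K' = (K0 + 1) / J := ⟨_, rfl⟩
  rw [← hK']
  have hK'1 : 1 ≤ K' := by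
    rw [hK']
    exact (Nat.one_le_div_iff (by omega)).2 hJn
  have hK'J : J * K' ≤ K0 + 1 := by
    rw [hK']
    exact Nat.mul_div_le _ _
  have hK'2 : K0 + 1 ≤ 2 * (J * K') := by
    have h1 := Nat.lt_mul_div_succ (K0 + 1) (by omega : 0 < J)
    rw [← hK'] at h1
    have h2 : J * (K' + 1) ≤ 2 * (J * K') := by nlinarith
    omega
  have hK'0 : (0 : ℝ) < K' := by exact_mod_cast hK'1
  have hB0 : (0 : ℝ) < B := by exact_mod_cast hB1
  have hJ0 : (0 : ℝ) < J := by exact_mod_cast hJ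
  have hcard : ∀ u : ℕ, (Ico (u * K') ((u + 1) * K')).card = K' := by
    intro u
    rw [Nat.card_Ico]
    have : (u + 1) * K' = u * K' + K' := by ring
    omega
  have hM0 : (25000 : ℝ) * s ≤ K' * (B : ℝ) ^ 2 := by
    have h1 : s ≤ 4 * gam * B * (K0 + 1) / (1 / 100 * (1 / 20)) := by
      rw [le_div_iff₀ (by norm_num)]
      exact hM
    have h2 : ((K0 : ℝ) + 1) ≤ 2 * (J * K') := by exact_mod_cast hK'2
    have h3 : 8 * gam * 25000 / (1 / 100 * (1 / 20)) * J ≤ B := by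
      calc 8 * gam * 25000 / (1 / 100 * (1 / 20)) * J ≤ (C : ℝ) * J :=
            mul_le_mul_of_nonneg_right hC hJ0.le
        _ ≤ ((C + 1 : ℕ) : ℝ) * J := by
            push_cast
            nlinarith
        _ = B := by
            rw [hB]
            push_cast
            ring
    have hg := gam_pos
    calc (25000 : ℝ) * s ≤ 25000 * (4 * gam * B * (K0 + 1) / (1 / 100 * (1 / 20))) := by
          apply mul_le_mul_of_nonneg_left h1 (by norm_num)
      _ = (4 * gam * B * 25000 / (1 / 100 * (1 / 20))) * (K0 + 1) := by ring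
      _ ≤ (4 * gam * B * 25000 / (1 / 100 * (1 / 20))) * (2 * (J * K')) := by
          apply mul_le_mul_of_nonneg_left h2 (by positivity)
      _ = (8 * gam * 25000 / (1 / 100 * (1 / 20)) * J) * (B * K') := by ring
      _ ≤ B * (B * K') := mul_le_mul_of_nonneg_right h3 (by positivity)
      _ = _ := by ring
  have hcore := blkcore f c A (s ^ (K0 + 1)) (499 / 10) (1 / 20) 25000 (1 / 100) (1 / 100) J
    (fun u => Ico (u * K') ((u + 1) * K')) (fun _ => K' * (B : ℝ) ^ 2 / s) hsm hcs hf0 hc hA hf1 hII0 hII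
    (by norm_num) (by norm_num) (by norm_num) (by norm_num) (by norm_num) (by norm_num) (by norm_num)
    (by norm_num) ?_
  · exact BLKg_mono hcore (by norm_num) (by norm_num)
  · intro u hu
    refine ⟨?_, ?_, ?_, ?_⟩
    · rw [le_div_iff₀ hs]
      exact hM0
    · rw [nonempty_Ico]
      have : (u + 1) * K' = u * K' + K' := by ring
      omega
    · intro i hi
      rw [mem_Ico] at hi
      rw [mem_range]
      exact hi.2.trans_le ((Nat.mul_le_mul_right _ hu).trans hK'J)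
    · intro i _
      rw [hcard]
      have hss : 0 < s ^ K0 := by positivity
      refine ⟨?_, fun j0 _ => ?_⟩
      · have h1 := hJJ i
        have e1 : (1 - 1 / 100) * (K' * (B : ℝ) ^ 2 / s) * s ^ (K0 + 1) =
            K' * ((1 - 1 / 100) * (B : ℝ) ^ 2 * s ^ K0) := by
          field_simp
          ring
        rw [e1]
        exact mul_le_mul_of_nonneg_left h1 hK'0.le
      · have h1 := hJ2 i j0
        have e1 : (K' * (B : ℝ) ^ 2 / s) ^ 2 * s ^ (K0 + 1) = (K' : ℝ) ^ 2 * ((B : ℝ) ^ 4 * s ^ K0 / s) := by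
          field_simp
          ring
        rw [e1]
        apply mul_le_mul_of_nonneg_left _ (by positivity)
        rw [le_div_iff₀ hs]
        exact h1

/-- `J` can be taken at least `c log n` -/
theorem blk_log : ∃ (c : ℝ) (n0 : ℕ), 0 < c ∧ ∀ n : ℕ, n0 ≤ n → ∃ J : ℕ, 1 ≤ J ∧ J ≤ n ∧ c * Real.log n ≤ J ∧
    BLKg n J (fun s => Ico (s * (n / J)) ((s + 1) * (n / J))) 2 (1 / 10) := by
  obtain ⟨C, hC, h⟩ := blkn
  have hC0 : (0 : ℝ) < C := by exact_mod_cast hC
  have hlog : Tendsto (fun n : ℕ => Real.log (n : ℝ)) atTop atTop :=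
    Real.tendsto_log_atTop.comp tendsto_natCast_atTop_atTop
  obtain ⟨n1, hn1⟩ := eventually_atTop.1 (hlog.eventually_ge_atTop (4 * (C : ℝ) + 4))
  refine ⟨1 / (2 * C), max n1 (2 * 2 ^ C), by positivity, ?_⟩
  intro n hn
  have hl := hn1 n ((le_max_left _ _).trans hn)
  have hn2 : 2 * 2 ^ C ≤ n := (le_max_right _ _).trans hn
  have hn0 : n ≠ 0 := by
    have : 0 < 2 ^ C := Nat.two_pow_pos C
    omega
  obtain ⟨J, hJ⟩ : ∃ J, J = (Nat.log 2 n - 1) / C := ⟨_, rfl⟩
  have hlog2 : C + 1 ≤ Nat.log 2 n := by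
    apply (Nat.le_log_iff_pow_le (by norm_num) hn0).2
    rw [pow_succ]
    omega
  have hJ1 : 1 ≤ J := by
    rw [hJ]
    exact (Nat.one_le_div_iff (by omega)).2 (by omega)
  have hCJ : C * J ≤ Nat.log 2 n - 1 := by
    rw [hJ]
    exact Nat.mul_div_le _ _
  have hpow : 2 * 2 ^ (C * J) ≤ n := by
    calc 2 * 2 ^ (C * J) = 2 ^ (C * J + 1) := by rw [pow_succ]; ring
      _ ≤ 2 ^ Nat.log 2 n := Nat.pow_le_pow_right (by norm_num) (by omega)
      _ ≤ n := Nat.pow_log_le_self 2 hn0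
  have hJn : J ≤ n := by
    have h1 : C * J < 2 ^ (C * J) := Nat.lt_two_pow_self
    have h2 : J ≤ C * J := Nat.le_mul_of_pos_left _ (by omega)
    omega
  refine ⟨J, hJ1, hJn, ?_, h J n hJ1 hpow⟩
  -- the lower bound for `J`
  have h1 : Nat.log 2 n - 1 < C * (J + 1) := by
    rw [hJ]
    exact Nat.lt_mul_div_succ _ (by omega)
  have h2 : n < 2 ^ (Nat.log 2 n + 1) := Nat.lt_pow_succ_log_self (by norm_num) n
  have h3 : Real.log n ≤ (Nat.log 2 n + 1 : ℕ) * Real.log 2 := by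
    rw [← Real.log_pow]
    apply Real.log_le_log (by exact_mod_cast Nat.pos_of_ne_zero hn0)
    exact_mod_cast h2.le
  have h4 : Real.log 2 ≤ 1 := by
    have := Real.log_two_lt_d9
    linarith
  have h5 : Nat.log 2 n + 1 ≤ C * (J + 1) + 2 := by omega
  have h6 : Real.log n ≤ C * (J + 1) + 2 := by
    have h7 : ((Nat.log 2 n + 1 : ℕ) : ℝ) ≤ C * (J + 1) + 2 := by exact_mod_cast h5
    have h8 : (0 : ℝ) ≤ ((Nat.log 2 n + 1 : ℕ) : ℝ) := Nat.cast_nonneg _
    nlinarith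
  rw [div_mul_eq_mul_div, one_mul, div_le_iff₀ (by positivity)]
  nlinarith

end Pool.Agent.Y879.NP
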