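import Pool.Agent.Y879.NP.Blk
import Pool.Agent.Y879.PR.Win

/-!
# Many primes and all numbers almost prime, in the right order of magnitude
-/

set_option autoImplicit false

namespace Pool.Agent.Y879.NP

open Finset Filter Topology
open Pool.Agent.Y520.NP (BLKg Std)
open Pool.Agent.Y879.PR (free_class dvd_pri le_of_dvd_pri sq_pri)

open Classical in
/-- the number of the blocks which contain a prime -/
noncomputable def PB (J : ℕ) (blk : ℕ → Finset ℕ) (t : ℕ → ℕ) (m : ℕ) : ℕ :=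
  ((range J).filter (fun s => ∃ i ∈ blk s, (m + t i).Prime)).card

lemma pb_le (J : ℕ) (blk : ℕ → Finset ℕ) (t : ℕ → ℕ) (m : ℕ) : PB J blk t m ≤ J := by
  classical
  unfold PB
  exact (card_filter_le _ _).trans (by simp)

open Classical in
theorem count {n J : ℕ} {blk : ℕ → Finset ℕ} (hJ : 1 ≤ J) (h : BLKg n J blk 2 (1 / 10)) :
    ∃ z : ℕ, ∀ (W a0 : ℕ) (t : ℕ → ℕ), Std n z W a0 t → ∃ δ κ : ℝ, 0 < δ ∧ 0 < κ ∧ ∀ᶠ X : ℝ in atTop,
      κ * X / Real.log X ^ n ≤ (((Icc 1 ⌊3 * X⌋₊).filter (fun m : ℕ => X < m ∧ m ≡ a0 [MOD W] ∧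
        (∀ i < n, ∀ p : ℕ, p.Prime → p ∣ m + t i → X ^ δ < p) ∧ J ≤ 40 * PB J blk t m)).card : ℝ) := by
  obtain ⟨z, hz⟩ := h
  refine ⟨z, fun W a0 t hstd => ?_⟩
  obtain ⟨mu, hev, hβ⟩ := hz W a0 t hstd
  obtain ⟨δ, D, hδ, hD, hev2⟩ := hβ (1 / 40) (by norm_num)
  refine ⟨δ, 1 / (40 * D), hδ, by positivity, ?_⟩
  filter_upwards [hev, hev2, eventually_gt_atTop 1] with X hX hX2 hX1
  obtain ⟨h0, hsupp, htot, hblk⟩ := hX
  obtain ⟨hbad, hup⟩ := hX2
  have hX0 : 0 < X := by linarith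
  have hlog : 0 < Real.log X := Real.log_pos hX1
  have hJ0 : (0 : ℝ) < J := by exact_mod_cast hJ
  obtain ⟨I, hI⟩ : ∃ I, I = Icc 1 ⌊3 * X⌋₊ := ⟨_, rfl⟩
  rw [← hI] at htot hblk hbad ⊢
  obtain ⟨Rg, hRg⟩ : ∃ Rg : ℕ → Prop, Rg = fun m => ∀ i < n, ∀ p : ℕ, p.Prime → p ∣ m + t i → X ^ δ < p :=
    ⟨_, rfl⟩
  obtain ⟨E, hE⟩ : ∃ E : ℝ, E = D * Real.log X ^ n / X := ⟨_, rfl⟩
  have hE0 : 0 < E := by rw [hE]; positivity
  obtain ⟨G, hG⟩ : ∃ G : Finset ℕ, G = I.filter (fun m : ℕ => X < m ∧ m ≡ a0 [MOD W] ∧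
        (∀ i < n, ∀ p : ℕ, p.Prime → p ∣ m + t i → X ^ δ < p) ∧ J ≤ 40 * PB J blk t m) := ⟨_, rfl⟩
  rw [← hG]
  -- the lower bound
  have hlow : (J : ℝ) * (1 / 10) ≤ ∑ m ∈ I, mu X m * (PB J blk t m : ℝ) := by
    have e1 : ∑ m ∈ I, mu X m * (PB J blk t m : ℝ) =
        ∑ s ∈ range J, ∑ m ∈ I.filter (fun m => ∃ i ∈ blk s, (m + t i).Prime), mu X m := by
      have e2 : ∀ m, mu X m * (PB J blk t m : ℝ) =
          ∑ s ∈ range J, if (∃ i ∈ blk s, (m + t i).Prime) then mu X m else 0 := by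
        intro m
        unfold PB
        rw [← Finset.sum_filter, Finset.sum_const, nsmul_eq_mul, mul_comm]
      simp_rw [e2]
      rw [Finset.sum_comm]
      apply Finset.sum_congr rfl
      intro s _
      rw [Finset.sum_filter]
    rw [e1]
    calc (J : ℝ) * (1 / 10) = ∑ s ∈ range J, (1 / 10 : ℝ) := by
          rw [Finset.sum_const, card_range, nsmul_eq_mul]
      _ ≤ _ := Finset.sum_le_sum (fun s hs => hblk s (mem_range.1 hs))
  -- the upper bound
  have hpt : ∀ m ∈ I, mu X m * (PB J blk t m : ℝ) ≤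
      J * (if ¬ Rg m then mu X m else 0) + J / 40 * mu X m + (if m ∈ G then J * E else 0) := by
    intro m hm
    have hm0 := h0 m
    have hPB : (PB J blk t m : ℝ) ≤ J := by exact_mod_cast pb_le J blk t m
    have hPB0 : (0 : ℝ) ≤ PB J blk t m := Nat.cast_nonneg _
    have hlast : (0 : ℝ) ≤ (if m ∈ G then J * E else 0) := by
      split_ifs
      · positivity
      · exact le_rfl
    by_cases hr : Rg m
    · rw [if_neg (not_not.2 hr)]
      by_cases hmu : mu X m = 0
      · rw [hmu]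
        simp only [zero_mul, mul_zero, zero_add]
        exact hlast
      · by_cases h40 : J ≤ 40 * PB J blk t m
        · have hmG : m ∈ G := by
            rw [hG, mem_filter]
            obtain ⟨g1, -, g3⟩ := hsupp m hmu
            refine ⟨hm, g1, g3, ?_, h40⟩
            rw [hRg] at hr
            exact hr
          rw [if_pos hmG]
          have g4 : mu X m ≤ E := by
            rw [hE]
            rw [hRg] at hr
            exact hup m hr
          have g5 : mu X m * (PB J blk t m : ℝ) ≤ E * J := mul_le_mul g4 hPB hPB0 hE0.le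
          have g6 : 0 ≤ (J : ℝ) / 40 * mu X m := by positivity
          linarith
        · rw [not_le] at h40
          have g1 : (40 : ℝ) * PB J blk t m ≤ J := by exact_mod_cast h40.le
          have g2 : mu X m * (PB J blk t m : ℝ) ≤ mu X m * (J / 40) :=
            mul_le_mul_of_nonneg_left (by linarith) hm0
          linarith
    · rw [if_pos hr]
      have g1 : mu X m * (PB J blk t m : ℝ) ≤ mu X m * J := mul_le_mul_of_nonneg_left hPB hm0
      have g6 : 0 ≤ (J : ℝ) / 40 * mu X m := by positivity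
      linarith
  have hupper : ∑ m ∈ I, mu X m * (PB J blk t m : ℝ) ≤
      J * (1 / 40) + J / 40 * 2 + G.card * (J * E) := by
    refine (Finset.sum_le_sum hpt).trans ?_
    rw [Finset.sum_add_distrib, Finset.sum_add_distrib, ← Finset.mul_sum, ← Finset.mul_sum]
    have g1 : ∑ m ∈ I, (if ¬ Rg m then mu X m else 0) ≤ 1 / 40 := by
      rw [← Finset.sum_filter]
      refine le_trans (le_of_eq ?_) hbad
      apply Finset.sum_congr _ (fun _ _ => rfl)
      ext m
      simp only [mem_filter, hRg]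
    have g2 : ∑ m ∈ I, (if m ∈ G then (J : ℝ) * E else 0) = G.card * (J * E) := by
      rw [← Finset.sum_filter, Finset.sum_const, nsmul_eq_mul]
      congr 3
      ext m
      rw [mem_filter, hG, mem_filter]
      tauto
    rw [g2]
    have g3 : (J : ℝ) * ∑ m ∈ I, (if ¬ Rg m then mu X m else 0) ≤ J * (1 / 40) :=
      mul_le_mul_of_nonneg_left g1 hJ0.le
    have g4 : (J : ℝ) / 40 * ∑ m ∈ I, mu X m ≤ J / 40 * 2 :=
      mul_le_mul_of_nonneg_left htot (by positivity)
    linarith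
  have hfin : (1 : ℝ) / 40 ≤ G.card * E := by
    have g1 := hlow.trans hupper
    have g2 : (J : ℝ) * (1 / 40) ≤ J * (G.card * E) := by linarith
    exact le_of_mul_le_mul_left g2 hJ0
  have hLn : 0 < Real.log X ^ n := by positivity
  rw [div_le_iff₀ hLn]
  rw [hE] at hfin
  have g3 : (1 : ℝ) / 40 * X ≤ G.card * (D * Real.log X ^ n) := by
    have := mul_le_mul_of_nonneg_right hfin hX0.le
    calc (1 : ℝ) / 40 * X ≤ G.card * (D * Real.log X ^ n / X) * X := this
      _ = _ := by field_simp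
  have e4 : 1 / (40 * D) * X = (1 / 40 * X) / D := by field_simp
  rw [e4, div_le_iff₀ hD]
  linarith

open Classical in
/-- the blocks of `K` coordinates contain at most one prime block each -/
lemma pb_le_card {n J K : ℕ} (hJK : J * K ≤ n) (t : ℕ → ℕ) (m : ℕ) :
    PB J (fun s => Ico (s * K) ((s + 1) * K)) t m ≤
      ((range n).filter (fun i => (m + t i).Prime)).card := by
  unfold PB
  have hsub : ((range J).filter (fun s => ∃ i ∈ Ico (s * K) ((s + 1) * K), (m + t i).Prime)) ⊆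
      ((range n).filter (fun i => (m + t i).Prime)).image (fun i => i / K) := by
    intro s hs
    obtain ⟨h1, i, hi, hpr⟩ := mem_filter.1 hs
    rw [mem_range] at h1
    rw [mem_Ico] at hi
    have hlt : i < n := hi.2.trans_le ((Nat.mul_le_mul_right K h1).trans hJK)
    refine mem_image.2 ⟨i, mem_filter.2 ⟨mem_range.2 hlt, hpr⟩, ?_⟩
    exact Nat.div_eq_of_lt_le hi.1 hi.2
  exact (card_le_card hsub).trans card_image_le

lemma sq_dvd {q : ℕ} (hq : Squarefree q) {x : ℤ} (h : ∀ p : ℕ, p.Prime → p ∣ q → (p : ℤ) ∣ x) :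
    (q : ℤ) ∣ x := by
  rw [Int.natCast_dvd]
  rw [← Nat.prod_primeFactors_of_squarefree hq]
  apply Finset.prod_primes_dvd
  · intro p hp
    exact (Nat.prime_of_mem_primeFactors hp).prime
  · intro p hp
    exact Int.natCast_dvd.1 (h p (Nat.prime_of_mem_primeFactors hp) (Nat.dvd_of_mem_primeFactors hp))

/-- the class with prescribed residues -/
lemma crt (Y : ℕ) (a : ℕ → ℕ) : ∃ c : ℕ, ∀ p : ℕ, p.Prime → p ≤ Y → c ≡ a p [MOD p] := by
  classical
  obtain ⟨c, hc⟩ := Nat.chineseRemainderOfFinset a id ((range (Y + 1)).filter Nat.Prime)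
    (fun i hi => (mem_filter.1 hi).2.ne_zero)
    (by
      intro p hp q hq hpq
      exact (Nat.coprime_primes (mem_filter.1 hp).2 (mem_filter.1 hq).2).2 hpq)
  exact ⟨c, fun p hp hpY => hc p (mem_filter.2 ⟨mem_range.2 (by omega), hp⟩)⟩

open Classical in
/-- **Many primes, all numbers almost prime, right order of magnitude.** -/
theorem sets : ∃ (c : ℝ) (n0 : ℕ), 0 < c ∧ ∀ (S : Finset ℕ) (y : ℕ), n0 ≤ S.card → S ⊆ range y →
    ∀ a : ℕ → ℕ, (∀ p : ℕ, p.Prime → p ≤ y → ∀ s ∈ S, ¬ p ∣ a p + s) →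
    ∃ δ κ : ℝ, 0 < δ ∧ 0 < κ ∧ ∀ᶠ X : ℝ in atTop,
      κ * X / Real.log X ^ S.card ≤ (((Icc 1 ⌊3 * X⌋₊).filter (fun m : ℕ => X < m ∧
        (∀ p : ℕ, p.Prime → p ≤ y → m ≡ a p [MOD p]) ∧
        (∀ s ∈ S, ∀ p : ℕ, p.Prime → p ∣ m + s → X ^ δ < p) ∧
        c * Real.log S.card ≤ ((S.filter (fun s => (m + s).Prime)).card : ℝ))).card : ℝ) := by
  obtain ⟨c, n0, hc, hblk⟩ := blk_log
  refine ⟨c / 40, n0, by positivity, ?_⟩
  intro S y hn hSy a ha
  obtain ⟨n, hnS⟩ : ∃ n, n = S.card := ⟨_, rfl⟩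
  rw [← hnS] at hn ⊢
  obtain ⟨J, hJ1, hJn, hJlog, hB⟩ := hblk n hn
  obtain ⟨z, hz⟩ := count hJ1 hB
  obtain ⟨Y, hY⟩ : ∃ Y, Y = max z y := ⟨_, rfl⟩
  have hzY : z ≤ Y := by rw [hY]; exact le_max_left _ _
  have hyY : y ≤ Y := by rw [hY]; exact le_max_right _ _
  have hcard : S.card ≤ y := by
    have := card_le_card hSy
    simpa using this
  -- the residues
  have hres : ∀ p : ℕ, ∃ b : ℕ, p.Prime → (∀ s ∈ S, ¬ p ∣ b + s) ∧ (p ≤ y → b = a p) := by
    intro p
    by_cases hp : p.Prime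
    · by_cases hpy : p ≤ y
      · exact ⟨a p, fun _ => ⟨ha p hp hpy, fun _ => rfl⟩⟩
      · obtain ⟨b, hb⟩ := free_class p S (by omega)
        exact ⟨b, fun _ => ⟨hb, fun h => absurd h hpy⟩⟩
    · exact ⟨0, fun h => absurd h hp⟩
  choose b hb using hres
  obtain ⟨a0, ha0⟩ := crt Y b
  obtain ⟨t, ht⟩ : ∃ t : ℕ → ℕ, t = fun i => if hi : i < n then
      (S.orderEmbOfFin hnS.symm ⟨i, hi⟩ : ℕ) else 0 := ⟨_, rfl⟩
  have htS : ∀ i < n, t i ∈ S := by
    intro i hi
    rw [ht]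
    simp only [hi, dif_pos]
    exact Finset.orderEmbOfFin_mem _ _ _
  have htinj : ∀ i < n, ∀ j < n, t i = t j → i = j := by
    intro i hi j hj hij
    rw [ht] at hij
    simp only [hi, hj, dif_pos] at hij
    have := (S.orderEmbOfFin hnS.symm).injective hij
    exact Fin.mk.inj_iff.1 this
  have htsurj : ∀ s ∈ S, ∃ i < n, t i = s := by
    intro s hs
    have h1 : s ∈ Set.range (S.orderEmbOfFin hnS.symm) := by
      rw [Finset.range_orderEmbOfFin]
      exact hs
    obtain ⟨i, hi⟩ := h1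
    refine ⟨i, i.2, ?_⟩
    rw [ht]
    simp only [i.2, dif_pos]
    exact hi
  have hstd : Std n z (primorial Y) a0 t := by
    refine ⟨primorial_pos Y, sq_pri Y, ?_, ?_, ?_⟩
    · intro p hp hpz
      exact dvd_pri hp (hpz.trans hzY)
    · intro i hi j hj hij p hp hd
      apply dvd_pri hp
      refine le_trans ?_ hyY
      have h1 := mem_range.1 (hSy (htS i hi))
      have h2 := mem_range.1 (hSy (htS j hj))
      have h3 : (t i : ℤ) - t j ≠ 0 := by
        intro h4
        exact hij (htinj i hi j hj (by omega))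
      have h4 := Int.le_of_dvd (abs_pos.2 h3) ((dvd_abs _ _).2 hd)
      have h5 : |(t i : ℤ) - t j| < y := by
        rw [abs_lt]
        omega
      omega
    · intro i hi
      apply Nat.coprime_of_dvd
      intro p hp hpd hpW
      have hpY := le_of_dvd_pri hp hpW
      have h1 : a0 + t i ≡ b p + t i [MOD p] := (ha0 p hp hpY).add_right _
      exact (hb p hp).1 _ (htS i hi) ((Nat.modEq_zero_iff_dvd).1
        (h1.symm.trans ((Nat.modEq_zero_iff_dvd).2 hpd)))
  obtain ⟨δ, κ, hδ, hκ, hev⟩ := hz (primorial Y) a0 t hstd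
  refine ⟨δ, κ, hδ, hκ, ?_⟩
  filter_upwards [hev] with X hX
  refine hX.trans ?_
  have hsub : ((Icc 1 ⌊3 * X⌋₊).filter (fun m : ℕ => X < m ∧ m ≡ a0 [MOD primorial Y] ∧
        (∀ i < n, ∀ p : ℕ, p.Prime → p ∣ m + t i → X ^ δ < p) ∧
          J ≤ 40 * PB J (fun s => Ico (s * (n / J)) ((s + 1) * (n / J))) t m)) ⊆
      ((Icc 1 ⌊3 * X⌋₊).filter (fun m : ℕ => X < m ∧
        (∀ p : ℕ, p.Prime → p ≤ y → m ≡ a p [MOD p]) ∧
        (∀ s ∈ S, ∀ p : ℕ, p.Prime → p ∣ m + s → X ^ δ < p) ∧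
        c / 40 * Real.log n ≤ ((S.filter (fun s => (m + s).Prime)).card : ℝ))) := by
    intro m hm
    obtain ⟨h1, h2, h3, h4, h5⟩ := mem_filter.1 hm
    refine mem_filter.2 ⟨h1, h2, ?_, ?_, ?_⟩
    · intro p hp hpy
      have h6 : m ≡ a0 [MOD p] := h3.of_dvd (dvd_pri hp (hpy.trans hyY))
      have h7 := ha0 p hp (hpy.trans hyY)
      rw [(hb p hp).2 hpy] at h7
      exact h6.trans h7
    · intro s hs
      obtain ⟨i, hi, rfl⟩ := htsurj s hs
      exact h4 i hi
    · have h6 := pb_le_card (n := n) (J := J) (K := n / J) (Nat.mul_div_le n J) t m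
      have h7 : ((range n).filter (fun i => (m + t i).Prime)).card ≤
          (S.filter (fun s => (m + s).Prime)).card := by
        apply Finset.card_le_card_of_injOn t
        · intro i hi
          obtain ⟨g1, g2⟩ := mem_filter.1 (Finset.mem_coe.1 hi)
          exact Finset.mem_coe.2 (mem_filter.2 ⟨htS i (mem_range.1 g1), g2⟩)
        · intro i hi j hj hij
          exact htinj i (mem_range.1 (mem_filter.1 (Finset.mem_coe.1 hi)).1) j
            (mem_range.1 (mem_filter.1 (Finset.mem_coe.1 hj)).1) hij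
      have h8 : J ≤ 40 * (S.filter (fun s => (m + s).Prime)).card := h5.trans (by omega)
      have h9 : (J : ℝ) ≤ 40 * ((S.filter (fun s => (m + s).Prime)).card : ℝ) := by exact_mod_cast h8
      linarith
  exact_mod_cast card_le_card hsub

end Pool.Agent.Y879.NP
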