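import Pool.Agent.Y879.NP.Top
import Pool.Agent.Y879.PR.Win

/-!
One prime at a prescribed place, all numbers almost prime
-/

set_option autoImplicit false

namespace Pool.Agent.Y879.NP

open Finset Filter Topology
open Pool.Agent.Y879.PR

lemma one_prime {k : ℕ} (hk : 2 ≤ k) (h : Fin k → ℕ) (hinj : Function.Injective h) (h0 : ∃ i, h i = 0)
    (hadm : ∀ q : ℕ, q.Prime → ∃ a : ℕ, ∀ i, ¬ q ∣ a + h i) (t : Fin k) : ∃ r : ℕ, ∀ Z : ℕ, ∃ m : ℕ, Z < m ∧
      (m + h t).Prime ∧ (∀ i, (m + h i).primeFactorsList.length ≤ r) ∧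
      ∀ q : ℕ, q.Prime → q ≤ Z → ∀ i, ¬ q ∣ m + h i := by
  classical
  obtain ⟨y, hy⟩ : ∃ y, y = (∑ i, h i) + 3 := ⟨_, rfl⟩
  have hiy : ∀ i, h i < y := by
    intro i
    have := Finset.single_le_sum (f := h) (fun _ _ => Nat.zero_le _) (mem_univ i)
    omega
  have hP := pat_adm hk (by omega : 3 ≤ y) hinj hiy h0
  have hne : (Cl y h).Nonempty := cl_ne hadm
  obtain ⟨r, hr2, hmain⟩ := pat_main hP hne 1 (1 / 2) (by norm_num) (by norm_num) (by norm_num) 1 (1 / 2)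
    (by norm_num) (by norm_num)
  obtain ⟨N₀, hN₀⟩ := hmain r le_rfl
  refine ⟨r, fun Z => ?_⟩
  have hrr : (2 : ℝ) ≤ r := by exact_mod_cast hr2
  have hz : ∀ᶠ N : ℕ in atTop, (Z : ℝ) ≤ (N : ℝ) ^ (1 / (r : ℝ)) :=
    ((tendsto_rpow_atTop (by positivity)).comp tendsto_natCast_atTop_atTop).eventually_ge_atTop _
  obtain ⟨N, hNZ, hN1, hN2⟩ := (hz.and ((eventually_ge_atTop N₀).and (eventually_ge_atTop (2 * Z + 10)))).exists
  obtain ⟨g1, -, g3, -, -, g6⟩ := hN₀ N hN1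
  have hX : (N : ℝ) ^ (1 : ℝ) ≤ N := by rw [Real.rpow_one]
  have hL : (1 / 2 : ℝ) * (N : ℝ) ≤ ((N - N / 2 : ℕ) : ℝ) := by
    have h1 : N ≤ 2 * (N - N / 2) := by omega
    have h2 : (N : ℝ) ≤ 2 * ((N - N / 2 : ℕ) : ℝ) := by exact_mod_cast h1
    linarith
  obtain ⟨h8, -⟩ := g6 t N hX (N / 2) (N - N / 2) hL (by omega)
  have hL0 : (0 : ℝ) < ((N - N / 2 : ℕ) : ℝ) := by
    have : 0 < N - N / 2 := by omega
    exact_mod_cast this
  have hM0 : (0 : ℝ) < (primorial y : ℝ) := by exact_mod_cast primorial_pos y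
  have hC0 : (0 : ℝ) < ((Cl y h).card : ℝ) := by exact_mod_cast Finset.card_pos.2 hne
  have hpos : 0 < ((Cl y h).card : ℝ) * (((N - N / 2 : ℕ) : ℝ) / (primorial y : ℕ) * PW (primorial y) k N r) := by
    positivity
  have h9 := (abs_le.1 h8).1
  have h10 : 0 < ((PP h N r t (N / 2) (N - N / 2)).card : ℝ) * Real.log N := by linarith
  have h11 : (PP h N r t (N / 2) (N - N / 2)).card ≠ 0 := by
    intro h0
    rw [h0] at h10
    simp at h10
  obtain ⟨m, hm⟩ := Finset.card_pos.1 (Nat.pos_of_ne_zero h11)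
  unfold PP at hm
  obtain ⟨q1, q2, q3⟩ := mem_filter.1 hm
  rw [mem_Ioc] at q1
  refine ⟨m, by omega, q2, fun i => g1 m (by omega) q3 i, ?_⟩
  intro q hq hqZ i
  unfold PG at q3
  exact q3 q hq ((by exact_mod_cast hqZ : (q : ℝ) ≤ Z).trans hNZ) i

/-- **A prime at a prescribed place, almost primes at the others.** -/
theorem one_prime_set (S : Finset ℕ) (hS : 2 ≤ S.card)
    (hadm : ∀ q : ℕ, q.Prime → ∃ a : ℕ, ∀ s ∈ S, ¬ q ∣ a + s) (t : ℕ) (ht : t ∈ S) : ∃ r : ℕ, ∀ Z : ℕ, ∃ m : ℕ,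
      Z < m ∧ (m + t).Prime ∧ (∀ s ∈ S, (m + s).primeFactorsList.length ≤ r) ∧
      ∀ q : ℕ, q.Prime → q ≤ Z → ∀ s ∈ S, ¬ q ∣ m + s := by
  classical
  have hSne : S.Nonempty := ⟨t, ht⟩
  obtain ⟨a, ha, hmin⟩ : ∃ a ∈ S, ∀ s ∈ S, a ≤ s := ⟨S.min' hSne, S.min'_mem hSne, fun s hs => S.min'_le s hs⟩
  have hmem : ∀ i, S.orderEmbOfFin rfl i ∈ S := fun i => Finset.orderEmbOfFin_mem _ _ _
  have hsurj : ∀ s ∈ S, ∃ i, S.orderEmbOfFin rfl i = s := by
    intro s hs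
    have h1 : s ∈ Set.range (S.orderEmbOfFin rfl) := by
      rw [Finset.range_orderEmbOfFin]
      exact hs
    exact h1
  obtain ⟨t', ht'⟩ := hsurj t ht
  obtain ⟨r, hr⟩ := one_prime hS (fun i => S.orderEmbOfFin rfl i - a) (by
      intro i j hij
      have h1 := hmin _ (hmem i)
      have h2 := hmin _ (hmem j)
      have h3 : S.orderEmbOfFin rfl i - a = S.orderEmbOfFin rfl j - a := hij
      exact (S.orderEmbOfFin rfl).injective (by omega))
    (by
      obtain ⟨i, hi⟩ := hsurj a ha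
      exact ⟨i, by simp only [hi]; omega⟩)
    (by
      intro q hq
      obtain ⟨b, hb⟩ := hadm q hq
      refine ⟨b + a, fun i => ?_⟩
      have h1 := hmin _ (hmem i)
      have e : b + a + (S.orderEmbOfFin rfl i - a) = b + S.orderEmbOfFin rfl i := by omega
      simp only [e]
      exact hb _ (hmem i)) t'
  refine ⟨r, fun Z => ?_⟩
  obtain ⟨m, h1, h2, h3, h4⟩ := hr (Z + a)
  have key : ∀ i, m + (S.orderEmbOfFin rfl i - a) = (m - a) + S.orderEmbOfFin rfl i := by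
    intro i
    have := hmin _ (hmem i)
    omega
  refine ⟨m - a, by omega, ?_, ?_, ?_⟩
  · have h5 := h2
    have e := key t'
    rw [ht'] at e
    simp only [ht'] at h5
    rwa [e] at h5
  · intro s hs
    obtain ⟨i, rfl⟩ := hsurj s hs
    have h5 := h3 i
    simp only [key] at h5
    exact h5
  · intro q hq hqZ s hs
    obtain ⟨i, rfl⟩ := hsurj s hs
    have h5 := h4 q hq (by omega) i
    simp only [key] at h5
    exact h5

end Pool.Agent.Y879.NP
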