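import Pool.Agent.Y879.NP.Cnt
import Pool.Agent.Y879.GL.Pattern
import Pool.Agent.Y960.NP.Nar
import Pool.Agent.Y677.RSZ.Top

/-!
# Many primes, all numbers almost prime, narrow progressions in dense subsets
-/

set_option autoImplicit false

namespace Pool.Agent.Y879.NP

open Finset Filter Topology

/-- dense subsets contain narrow progressions -/
theorem narrow (S : Finset ℕ) (l : ℕ) (δ ε : ℝ) (hδ : 0 < δ) (hε : 0 < ε) : ∃ (C : ℕ) (x₀ : ℝ),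
    ∀ x : ℝ, x₀ ≤ x → ∀ A : Finset ℕ, (∀ m ∈ A, x < m ∧ (m : ℝ) ≤ 3 * x) →
    (∀ m ∈ A, ∀ s ∈ S, ∀ p : ℕ, p.Prime → p ∣ m + s → x ^ δ < p) →
    ε * x / Real.log x ^ S.card ≤ A.card →
    ∃ m d : ℕ, 1 ≤ d ∧ (d : ℝ) ≤ Real.log x ^ C ∧ ∀ j < l, m + j * d ∈ A :=
  Pool.Agent.Y960.NP.nar Pool.Agent.Y677.RSZ.eng_all S l δ ε hδ hε

/-- few prime factors -/
theorem few (y : ℕ) (δ : ℝ) (hδ : 0 < δ) : ∃ r : ℕ, ∀ᶠ X : ℝ in atTop, ∀ m s : ℕ, s ≤ y → 0 < m → (m : ℝ) ≤ 3 * X →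
    (∀ p : ℕ, p.Prime → p ∣ m + s → X ^ δ < p) → (m + s).primeFactorsList.length ≤ r := by
  obtain ⟨r, hr⟩ : ∃ r : ℕ, 2 / δ ≤ (r : ℝ) := exists_nat_ge _
  refine ⟨r, ?_⟩
  filter_upwards [eventually_ge_atTop ((y : ℝ) + 4), eventually_gt_atTop 1] with X hX hX1
  intro m s hs hm hmX hp
  have hz1 : (1 : ℝ) < X ^ δ := Real.one_lt_rpow hX1 hδ
  refine Pool.Agent.Y879.GL.few_of_rough (X ^ δ) hz1 _ r (by omega) ?_ (fun p hpp hpd => hp p hpp hpd)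
  have h1 : X ^ (2 : ℝ) ≤ (X ^ δ) ^ r := by
    rw [← Real.rpow_natCast, ← Real.rpow_mul (by linarith)]
    apply Real.rpow_le_rpow_of_exponent_le hX1.le
    rw [div_le_iff₀ hδ] at hr
    linarith
  refine le_trans ?_ h1
  have h2 : (s : ℝ) ≤ y := by exact_mod_cast hs
  have h3 : X ^ (2 : ℝ) = X * X := by
    rw [show (2 : ℝ) = ((2 : ℕ) : ℝ) by norm_num, Real.rpow_natCast]
    ring
  rw [h3]
  push_cast
  have hy0 : (0 : ℝ) ≤ y := Nat.cast_nonneg _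
  nlinarith

end Pool.Agent.Y879.NP
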